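import Pool.Agent.Y192.KC.Stm2
import Pool.Agent.Y192.OG.B7

set_option autoImplicit false

/-!
Passing to a subgroup of characters (task KG5 of the project on covers of subvarieties of tori).
-/

namespace Pool.Agent.Y379.KG

open Pool.Agent.Y192.OG Pool.Agent.Y192.KC

section lin

variable {ρ N : ℕ}

/-- the homomorphism given by the vectors `γ` -/
noncomputable def LL (γ : Fin ρ → Fin N → ℤ) : (Fin ρ → ℤ) →ₗ[ℤ] (Fin N → ℤ) :=
  Fintype.linearCombination ℤ γ

theorem LL_apply (γ : Fin ρ → Fin N → ℤ) (a : Fin ρ → ℤ) : LL γ a = ∑ i, a i • γ i := rfl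

theorem lm_single (γ : Fin ρ → Fin N → ℤ) (a : Fin ρ → ℤ) (c : ℂ) :
    lm γ (AddMonoidAlgebra.single a c) = AddMonoidAlgebra.single (LL γ a) c := by
  unfold lm
  rw [AddMonoidAlgebra.lift_single]
  show c • (AddMonoidAlgebra.single (∑ i, a i • γ i) (1 : ℂ) : Lau N) = _
  rw [AddMonoidAlgebra.smul_single, smul_eq_mul, mul_one, LL_apply]

theorem mkQ_eq_iff {M : ℕ} (Γ : Submodule ℤ (Fin M → ℤ)) (a b : Fin M → ℤ) :
    Γ.mkQ a = Γ.mkQ b ↔ a - b ∈ Γ := by
  rw [← sub_eq_zero, ← map_sub]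
  exact Submodule.Quotient.mk_eq_zero Γ

/-- components and `lm` -/
theorem lm_comp (γ : Fin ρ → Fin N → ℤ) (Γ' : Submodule ℤ (Fin ρ → ℤ))
    (Γ₀ : Submodule ℤ (Fin N → ℤ)) (h : ∀ a, a ∈ Γ' ↔ LL γ a ∈ Γ₀) (a : Fin ρ → ℤ) (g : Lau ρ) :
    lm γ (comp Γ' (Γ'.mkQ a) g) = comp Γ₀ (Γ₀.mkQ (LL γ a)) (lm γ g) := by
  induction g using AddMonoidAlgebra.induction_linear with
  | zero => rw [comp_zero, map_zero, comp_zero]
  | add f g hf hg => rw [comp_add, map_add, map_add, comp_add, hf, hg]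
  | single b c =>
    have hiff : Γ'.mkQ b = Γ'.mkQ a ↔ Γ₀.mkQ (LL γ b) = Γ₀.mkQ (LL γ a) := by
      rw [mkQ_eq_iff, mkQ_eq_iff, h, map_sub]
    by_cases hb : Γ'.mkQ b = Γ'.mkQ a
    · rw [comp_single_pos Γ' hb, lm_single, comp_single_pos Γ₀ (hiff.mp hb)]
    · rw [comp_single_neg Γ' hb, lm_single, map_zero,
        comp_single_neg Γ₀ (fun h1 => hb (hiff.mpr h1))]

theorem exists_lm (γ : Fin ρ → Fin N → ℤ) (g : Lau N)
    (h : ∀ m ∈ g.coeff.support, ∃ a, LL γ a = m) : ∃ g' : Lau ρ, lm γ g' = g := by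
  classical
  have hg : g = ∑ m ∈ g.coeff.support, AddMonoidAlgebra.single m (g.coeff m) := by
    conv_lhs => rw [← AddMonoidAlgebra.sum_coeff_single g]
    rfl
  choose! s hs using h
  refine ⟨∑ m ∈ g.coeff.support, AddMonoidAlgebra.single (s m) (g.coeff m), ?_⟩
  rw [map_sum]
  conv_rhs => rw [hg]
  refine Finset.sum_congr rfl fun m hm => ?_
  rw [lm_single, hs m hm]

end lin

section xm

variable {N : ℕ} {K : Type} [Field K]

theorem xm_smul (x : Fin N → Kˣ) (n : ℤ) (m : Fin N → ℤ) : xm x (n • m) = xm x m ^ n := by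
  unfold xm
  rw [← Finset.prod_zpow]
  refine Finset.prod_congr rfl fun i _ => ?_
  rw [Pi.smul_apply, smul_eq_mul, mul_comm, zpow_mul]

theorem xm_sum (x : Fin N → Kˣ) {ι : Type} (s : Finset ι) (f : ι → Fin N → ℤ) :
    xm x (∑ i ∈ s, f i) = ∏ i ∈ s, xm x (f i) := by
  classical
  induction s using Finset.induction_on with
  | empty => rw [Finset.sum_empty, Finset.prod_empty, xm_zero]
  | insert a s ha ih => rw [Finset.sum_insert ha, Finset.prod_insert ha, xm_add, ih]

theorem ep_lm {ρ : ℕ} [Algebra ℂ K] (x : Fin N → Kˣ) (γ : Fin ρ → Fin N → ℤ) (g : Lau ρ) :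
    ep (fun i => xm x (γ i)) g = ep x (lm γ g) := by
  induction g using AddMonoidAlgebra.induction_linear with
  | zero => rw [map_zero, map_zero, map_zero]
  | add f g hf hg => rw [map_add, map_add, map_add, hf, hg]
  | single a c =>
    rw [lm_single, ep_single, ep_single, LL_apply, xm_sum]
    congr 2
    unfold xm
    refine Finset.prod_congr rfl fun i _ => ?_
    exact (xm_smul x (a i) (γ i)).symm

end xm

section hom

variable {N : ℕ}

/-- homogeneity for a larger subgroup -/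
theorem hom_up (I : Ideal (Lau N)) (Γ₀ Γ : Submodule ℤ (Fin N → ℤ)) (hle : Γ₀ ≤ Γ)
    (h : ∀ g ∈ I, ∀ q, comp Γ₀ q g ∈ I) : ∀ g ∈ I, ∀ q, comp Γ q g ∈ I := by
  classical
  intro g hg q
  -- the classes of the exponents
  have key : comp Γ q g = ∑ c ∈ (g.coeff.support.filter fun m => Γ.mkQ m = q).image Γ₀.mkQ,
      comp Γ₀ c g := by
    apply AddMonoidAlgebra.coeff_injective
    ext m
    have hsum : (∑ c ∈ (g.coeff.support.filter fun m => Γ.mkQ m = q).image Γ₀.mkQ,
        comp Γ₀ c g).coeff m = ∑ c ∈ (g.coeff.support.filter fun m => Γ.mkQ m = q).image Γ₀.mkQ,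
        (comp Γ₀ c g).coeff m := by
      rw [AddMonoidAlgebra.coeff_sum, Finsupp.finsetSum_apply]
    rw [hsum, comp_coeff]
    simp only [comp_coeff]
    rw [Finset.sum_ite_eq]
    by_cases hm : Γ.mkQ m = q
    · rw [if_pos hm]
      by_cases hgm : g.coeff m = 0
      · rw [hgm]; split_ifs <;> rfl
      · rw [if_pos]
        rw [Finset.mem_image]
        exact ⟨m, Finset.mem_filter.mpr ⟨Finsupp.mem_support_iff.mpr hgm, hm⟩, rfl⟩
    · rw [if_neg hm, if_neg]
      rw [Finset.mem_image]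
      rintro ⟨m', hm', hmm⟩
      rw [Finset.mem_filter] at hm'
      apply hm
      rw [← hm'.2, mkQ_eq_iff]
      have h1 := (mkQ_eq_iff Γ₀ m' m).mp hmm
      have h2 := hle h1
      rw [← neg_sub] 
      exact Γ.neg_mem h2
  rw [key]
  exact I.sum_mem fun c _ => h g hg c

end hom

theorem t_desc : St_desc := by
  classical
  intro N K _ _ x Γ₀ Γ hS0 hS hle hhom hleast
  -- a basis of `Γ`
  let b := Module.finBasis ℤ Γ
  let γ : Fin (Module.finrank ℤ Γ) → Fin N → ℤ := fun i => (b i : Fin N → ℤ)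
  have hLval : ∀ a : Fin (Module.finrank ℤ Γ) → ℤ,
      LL γ a = ((∑ i, a i • b i : Γ) : Fin N → ℤ) := by
    intro a
    rw [LL_apply, Submodule.coe_sum]
    rfl
  have hLmem : ∀ a, LL γ a ∈ Γ := fun a => by rw [hLval]; exact Submodule.coe_mem _
  have hLinj : ∀ a, LL γ a = 0 → a = 0 := by
    intro a ha
    rw [hLval] at ha
    have h1 : (∑ i, a i • b i : Γ) = 0 := Subtype.ext ha
    funext i
    exact Fintype.linearIndependent_iff.mp b.linearIndependent a h1 i
  have hLsurj : ∀ m ∈ Γ, ∃ a, LL γ a = m := by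
    intro m hm
    refine ⟨fun i => b.repr ⟨m, hm⟩ i, ?_⟩
    rw [hLval, b.sum_repr]
  have hLeq : ∀ a a', LL γ a = LL γ a' → a = a' := by
    intro a a' h
    have := hLinj (a - a') (by rw [map_sub, h, sub_self])
    exact sub_eq_zero.mp this
  let Γ' : Submodule ℤ (Fin (Module.finrank ℤ Γ) → ℤ) := Γ₀.comap (LL γ)
  have hΓ' : ∀ a, a ∈ Γ' ↔ LL γ a ∈ Γ₀ := fun a => Iff.rfl
  have hfr : Module.finrank ℤ Γ ≤ N := by
    have := Submodule.finrank_le Γ
    rwa [Module.finrank_fin_fun] at this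
  refine ⟨Module.finrank ℤ Γ, γ, Γ', ?_, hfr, hLinj, ?_, hΓ', ?_, ep_lm x γ, ?_, ?_⟩
  · intro hne
    refine lt_of_le_of_ne hfr fun heq => hne ?_
    have h1 := Submodule.finrank_quotient_add_finrank Γ
    rw [Module.finrank_fin_fun, heq] at h1
    have h2 : Module.finrank ℤ ((Fin N → ℤ) ⧸ Γ) = 0 := by omega
    rw [Module.finrank_eq_zero_iff] at h2
    rw [eq_top_iff]
    intro m _
    obtain ⟨n, hn, hnm⟩ := h2 (Γ.mkQ m)
    rw [← map_smul] at hnm
    exact hS n m hn ((Submodule.Quotient.mk_eq_zero Γ).mp hnm)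
  · intro m
    constructor
    · intro hm
      obtain ⟨a, ha⟩ := hLsurj m hm
      exact ⟨a, ha.symm⟩
    · rintro ⟨a, rfl⟩
      exact hLmem a
  · intro n a hn ha
    rw [hΓ'] at ha ⊢
    rw [map_smul] at ha
    exact hS0 n _ hn ha
  · intro g hg q
    obtain ⟨a, rfl⟩ := Γ'.mkQ_surjective q
    rw [RingHom.mem_ker] at hg ⊢
    have h1 : ep x (lm γ g) = 0 := by rw [← ep_lm]; exact hg
    have h2 := hhom (lm γ g) h1 (Γ₀.mkQ (LL γ a))
    rw [← lm_comp γ Γ' Γ₀ hΓ', RingHom.mem_ker] at h2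
    have h3 : ep x (lm γ (comp Γ' (Γ'.mkQ a) g)) = 0 := h2
    rw [← ep_lm] at h3
    exact h3
  · intro Γ'' hS'' hhom''
    let Γ3 : Submodule ℤ (Fin N → ℤ) := Γ''.map (LL γ)
    have hΓ3 : ∀ a, a ∈ Γ'' ↔ LL γ a ∈ Γ3 := by
      intro a
      constructor
      · intro ha
        exact Submodule.mem_map_of_mem ha
      · rintro ⟨a', ha', haa⟩
        rw [← hLeq a' a haa]
        exact ha'
    have h3le : Γ3 ≤ Γ := by
      rintro _ ⟨a, _, rfl⟩
      exact hLmem a
    have hS3 : Sat Γ3 := by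
      intro n m hn hm
      have hmΓ := hS n m hn (h3le hm)
      obtain ⟨a, rfl⟩ := hLsurj m hmΓ
      rw [← map_smul, ← hΓ3] at hm
      exact (hΓ3 a).mp (hS'' n a hn hm)
    have hhomΓ := hom_up (RingHom.ker (ep x)) Γ₀ Γ hle hhom
    have hhom3 : ∀ g ∈ RingHom.ker (ep x), ∀ q, comp Γ3 q g ∈ RingHom.ker (ep x) := by
      intro g hg q
      obtain ⟨t, rfl⟩ := Γ3.mkQ_surjective q
      rw [← comp_comp Γ h3le t g]
      set G1 := comp Γ (Γ.mkQ t) g with hG1
      have hG1mem : G1 ∈ RingHom.ker (ep x) := hhomΓ g hg _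
      -- shift to the class zero
      have hshift : G1 = AddMonoidAlgebra.single t (1 : ℂ) *
          (AddMonoidAlgebra.single (-t) (1 : ℂ) * G1) := by
        rw [← mul_assoc, AddMonoidAlgebra.single_mul_single, add_neg_cancel, mul_one]
        show G1 = 1 * G1
        rw [one_mul]
      have hsupp : ∀ m ∈ (AddMonoidAlgebra.single (-t) (1 : ℂ) * G1).coeff.support,
          ∃ a, LL γ a = m := by
        intro m hm
        apply hLsurj
        have h4 : AddMonoidAlgebra.single (-t) (1 : ℂ) * G1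
            = comp Γ (Γ.mkQ (t + -t)) (AddMonoidAlgebra.single (-t) (1 : ℂ) * g) := by
          rw [comp_shift]
        rw [h4, Finsupp.mem_support_iff, comp_coeff] at hm
        by_contra hmn
        apply hm
        rw [if_neg]
        rw [mkQ_eq_iff, add_neg_cancel, sub_zero]
        exact hmn
      obtain ⟨g', hg'⟩ := exists_lm γ _ hsupp
      have hker : g' ∈ RingHom.ker (ep fun i => xm x (γ i)) := by
        rw [RingHom.mem_ker]
        have h5 : ep x (AddMonoidAlgebra.single (-t) (1 : ℂ) * G1) = 0 := by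
          rw [map_mul]
          have h6 : ep x G1 = 0 := hG1mem
          rw [h6, mul_zero]
        rw [← hg', ← ep_lm] at h5
        exact h5
      have h7 : comp Γ3 (Γ3.mkQ t) G1 = AddMonoidAlgebra.single t (1 : ℂ) *
          lm γ (comp Γ'' (Γ''.mkQ 0) g') := by
        rw [hshift, ← hg', lm_comp γ Γ'' Γ3 hΓ3, map_zero]
        have h8 := comp_shift Γ3 t 0 (lm γ g')
        rw [zero_add] at h8
        exact h8
      rw [h7]
      apply Ideal.mul_mem_left
      have h9 := hhom'' g' hker (Γ''.mkQ 0)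
      rw [RingHom.mem_ker] at h9 ⊢
      have h10 : ep (fun i => xm x (γ i)) (comp Γ'' (Γ''.mkQ 0) g') = 0 := h9
      rw [ep_lm] at h10
      exact h10
    have hfin := hleast Γ3 hS3 hhom3
    intro a ha
    exact (hΓ3 a).mpr (hfin ((hΓ' a).mp ha))

end Pool.Agent.Y379.KG
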